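import Pool.Agent.P8H60.EN.Stm

/-! Project EN of helper60, package QF (helper4): the covariance matrix as a quadratic form. -/

set_option autoImplicit false

namespace Pool.Agent.P8H4.EN

open Finset Complex Pool.Agent.P8H60.EN
open Pool.Agent.P8H60.LM (GC VC)

/-- the square of the absolute value of a real linear combination -/
theorem norm_sq_comb {K : ℕ} (u : Fin K → ℝ) (z : Fin K → ℂ) :
    ‖∑ i, (u i : ℂ) * z i‖ ^ 2 = ∑ i, ∑ k, u i * u k * (z i * (starRingEnd ℂ) (z k)).re := by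
  have h1 : ((‖∑ i, (u i : ℂ) * z i‖ ^ 2 : ℝ) : ℂ) =
      (∑ i, (u i : ℂ) * z i) * (starRingEnd ℂ) (∑ i, (u i : ℂ) * z i) := by
    rw [Complex.mul_conj, Complex.normSq_eq_norm_sq]
  have h2 : ‖∑ i, (u i : ℂ) * z i‖ ^ 2 =
      ((∑ i, (u i : ℂ) * z i) * (starRingEnd ℂ) (∑ i, (u i : ℂ) * z i)).re := by
    rw [← h1, Complex.ofReal_re]
  rw [h2, map_sum, Finset.sum_mul_sum, Complex.re_sum]
  refine Finset.sum_congr rfl fun i _ => ?_
  rw [Complex.re_sum]
  refine Finset.sum_congr rfl fun k _ => ?_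
  have h3 : (u i : ℂ) * z i * (starRingEnd ℂ) ((u k : ℂ) * z k) =
      ((u i * u k : ℝ) : ℂ) * (z i * (starRingEnd ℂ) (z k)) := by
    rw [map_mul, Complex.conj_ofReal]
    push_cast
    ring
  rw [h3, Complex.re_ofReal_mul]

theorem quad {K : ℕ} (w l : ℝ) (h : Fin K → ℝ) (z0 X : ℕ) (u : Fin K → ℝ) :
    ∑ i, ∑ k, u i * SM w l h z0 X i k * u k = VC (zU w l h u z0) X / 2 := by
  unfold SM VC zU
  have h1 : ∀ p : ℕ, ‖∑ i, (u i : ℂ) * zE w l (h i) z0 p‖ ^ 2 = _ := fun p =>
    norm_sq_comb u fun i => zE w l (h i) z0 p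
  simp only [h1]
  rw [Finset.sum_comm, Finset.sum_div]
  simp only [Finset.sum_div, Finset.mul_sum, Finset.sum_mul]
  rw [Finset.sum_comm]
  have h2 : ∀ (i k : Fin K), ∑ p ∈ (Finset.Icc 1 X).filter Nat.Prime,
      u i * (1 / 2 * (zE w l (h i) z0 p * (starRingEnd ℂ) (zE w l (h k) z0 p)).re) * u k =
      ∑ p ∈ (Finset.Icc 1 X).filter Nat.Prime,
      u i * u k * (zE w l (h i) z0 p * (starRingEnd ℂ) (zE w l (h k) z0 p)).re / 2 :=
    fun i k => Finset.sum_congr rfl fun p _ => by ring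
  simp only [h2]
  rw [Finset.sum_comm (s := (Finset.Icc 1 X).filter Nat.Prime)]
  refine Finset.sum_congr rfl fun i _ => ?_
  rw [Finset.sum_comm]

theorem lin {K : ℕ} (w l : ℝ) (h : Fin K → ℝ) (z0 X : ℕ) (u : Fin K → ℝ) (t : ℝ) :
    ∑ i, u i * (GC (zE w l (h i) z0) X t).re = (GC (zU w l h u z0) X t).re := by
  unfold GC zU
  have h1 : ∑ p ∈ (Finset.Icc 1 X).filter Nat.Prime,
      (∑ i, (u i : ℂ) * zE w l (h i) z0 p) * (p : ℂ) ^ (-(t : ℂ) * I) =
      ∑ i, (u i : ℂ) * ∑ p ∈ (Finset.Icc 1 X).filter Nat.Prime,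
        zE w l (h i) z0 p * (p : ℂ) ^ (-(t : ℂ) * I) := by
    simp only [Finset.sum_mul, Finset.mul_sum]
    rw [Finset.sum_comm]
    refine Finset.sum_congr rfl fun i _ => Finset.sum_congr rfl fun p _ => by ring
  rw [h1, Complex.re_sum]
  refine Finset.sum_congr rfl fun i _ => ?_
  rw [Complex.re_ofReal_mul]

theorem t_QF : S_QF := by
  intro K w l h z0 X
  refine ⟨fun u => quad w l h z0 X u, fun u t => lin w l h z0 X u t, fun σ hσ => ?_⟩
  refine Matrix.PosSemidef.of_dotProduct_mulVec_nonneg ?_ fun x => ?_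
  · ext i k
    rw [Matrix.conjTranspose_apply, Matrix.sub_apply, Matrix.sub_apply, Matrix.smul_apply,
      Matrix.smul_apply, star_trivial]
    congr 1
    · unfold SM
      congr 1
      refine Finset.sum_congr rfl fun p _ => ?_
      rw [← Complex.conj_re, map_mul, Complex.conj_conj, mul_comm]
    · rcases eq_or_ne i k with rfl | hik
      · rfl
      · rw [Matrix.one_apply_ne hik, Matrix.one_apply_ne hik.symm]
  · have h1 := quad w l h z0 X x
    have h2 := hσ x
    have h3 : star x ⬝ᵥ (Matrix.mulVec (SM w l h z0 X - σ ^ 2 • (1 : Matrix (Fin K) (Fin K) ℝ)) x) =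
        ∑ i, ∑ k, x i * SM w l h z0 X i k * x k - σ ^ 2 * ∑ i, x i ^ 2 := by
      rw [Matrix.sub_mulVec, dotProduct_sub, Matrix.smul_mulVec, Matrix.one_mulVec,
        dotProduct_smul, smul_eq_mul]
      congr 1
      · unfold dotProduct Matrix.mulVec dotProduct
        refine Finset.sum_congr rfl fun i _ => ?_
        rw [Finset.mul_sum]
        refine Finset.sum_congr rfl fun k _ => ?_
        rw [Pi.star_apply, star_trivial]
        ring
      · congr 1
        unfold dotProduct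
        refine Finset.sum_congr rfl fun i _ => ?_
        rw [Pi.star_apply, star_trivial, sq]
    rw [h3]
    linarith

end Pool.Agent.P8H4.EN
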