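import Pool.Agent.P8H60.EN.Stm

/-! Project EN of helper60, package SSB (helper4): a lower bound for the moments of the coefficients. -/

set_option autoImplicit false

namespace Pool.Agent.P8H4.EN

open Finset Pool.Agent.P8H60.EN
open Pool.Agent.Y743.CL (VS SS)

theorem t_SSB : S_SSB := by
  intro c X M hM k
  have hM0 : 0 ≤ M := (sq_nonneg _).trans (hM 0)
  have hV : 0 ≤ VS c X := Pool.Agent.Y743.CL.VS_nonneg c X
  induction k with
  | zero => simp [Pool.Agent.Y743.CL.SS_zero]
  | succ k ih =>
    have hS : 0 ≤ SS c X (k + 1) := Pool.Agent.Y743.CL.SS_nonneg c X (k + 1)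
    have hk0 : (0 : ℝ) ≤ k := Nat.cast_nonneg k
    have hf : (0 : ℝ) < (k.factorial : ℝ) := by exact_mod_cast k.factorial_pos
    have hVk : 0 ≤ VS c X ^ k := pow_nonneg hV k
    rw [Nat.factorial_succ]
    push_cast
    rcases le_total ((k : ℝ) * M) (VS c X) with h | h
    · have h1 := Pool.Agent.Y743.CL.SS_lower (X := X) hM k
      refine le_trans ?_ h1
      rw [mul_assoc ((k : ℝ) + 1)]
      refine mul_le_mul_of_nonneg_left ?_ (by positivity)
      refine le_trans ?_ (mul_le_mul_of_nonneg_left ih (sub_nonneg.2 h))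
      rw [mul_left_comm]
      refine mul_le_mul_of_nonneg_left ?_ hf.le
      rcases Nat.eq_zero_or_pos k with h0 | h0
      · subst h0
        simp
      · obtain ⟨j, rfl⟩ : ∃ j, k = j + 1 := ⟨k - 1, by omega⟩
        have e2 : j + 1 - 1 = j := by omega
        rw [e2]
        have hVj : 0 ≤ VS c X ^ j := pow_nonneg hV j
        have hj0 : (0 : ℝ) ≤ j := Nat.cast_nonneg j
        have h3 : 0 ≤ ((j : ℝ) + 1) * M * (((j : ℝ) + 1) * j / 2 * M * VS c X ^ j) := by positivity
        push_cast
        rw [pow_succ, pow_succ]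
        nlinarith [h3]
    · refine le_trans ?_ hS
      have h4 : VS c X ^ (k + 1) ≤ (k : ℝ) * M * VS c X ^ k := by
        rw [pow_succ, mul_comm]
        exact mul_le_mul_of_nonneg_right h hVk
      rcases Nat.eq_zero_or_pos k with h0 | h0
      · subst h0
        simp only [CharP.cast_eq_zero, zero_mul] at h
        have h5 : VS c X = 0 := le_antisymm h hV
        simp [h5]
      · have h1k : (1 : ℝ) ≤ k := by exact_mod_cast h0
        have h6 : (k : ℝ) * M * VS c X ^ k ≤ (k + 1) * ((k : ℝ) + 1 - 1) / 2 * M * VS c X ^ k := by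
          have h7 : (k : ℝ) ≤ (k + 1) * ((k : ℝ) + 1 - 1) / 2 := by nlinarith
          exact mul_le_mul_of_nonneg_right (mul_le_mul_of_nonneg_right h7 hM0) hVk
        refine mul_nonpos_of_nonneg_of_nonpos (by positivity) ?_
        linarith

end Pool.Agent.P8H4.EN
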