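import Pool.Agent.Helper448.Warren

/-!
# Project EN of helper60, package WAR (helper4): Warren's bound for level sets of polynomial curves
-/

set_option autoImplicit false

namespace Pool.Agent.P8H4.EN

open Finset

theorem war_core (K D m : ℕ) (P : Fin K → MvPolynomial (Fin D) ℝ) (y : Fin K → ℝ)
    (hP : ∀ i, (P i).totalDegree ≤ m) :
    ({A : Set (Fin K) | ∃ (x : Fin D → ℝ) (b : ℝ),
      A = {i | MvPolynomial.eval x (P i) + b ≤ y i}}.ncard : ℝ) ≤
      (4 * K * (m + 1) + 2 : ℝ) ^ (D + 1) := by
  classical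
  obtain ⟨f, hf⟩ : ∃ f : Fin K → MvPolynomial (Option (Fin D)) ℝ, f = fun i =>
    MvPolynomial.rename some (P i) + MvPolynomial.X none - MvPolynomial.C (y i) := ⟨_, rfl⟩
  have hdeg : ∀ i, (f i).totalDegree ≤ m + 1 := by
    intro i
    rw [hf]
    refine (MvPolynomial.totalDegree_sub _ _).trans (max_le ?_ ?_)
    · refine (MvPolynomial.totalDegree_add _ _).trans (max_le ?_ ?_)
      · exact (MvPolynomial.totalDegree_rename_le _ _).trans ((hP i).trans (Nat.le_succ m))
      · rw [MvPolynomial.totalDegree_X]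
        omega
    · rw [MvPolynomial.totalDegree_C]
      omega
  have h1 := Pool.Agent.Helper448.Warren.ncard_sign_patterns_le f (m + 1) hdeg
  have h2 : {A : Set (Fin K) | ∃ (x : Fin D → ℝ) (b : ℝ),
      A = {i | MvPolynomial.eval x (P i) + b ≤ y i}} ⊆
      (fun s : Fin K → SignType => {i | s i ≠ 1}) ''
        (Set.range (fun x : Option (Fin D) → ℝ => fun i => SignType.sign (MvPolynomial.eval x (f i)))) := by
    rintro A ⟨x, b, rfl⟩
    refine ⟨_, ⟨fun o => o.elim b x, rfl⟩, ?_⟩
    ext i
    simp only [Set.mem_setOf_eq]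
    have e1 : MvPolynomial.eval (fun o : Option (Fin D) => o.elim b x) (f i) =
        MvPolynomial.eval x (P i) + b - y i := by
      rw [hf]
      simp only [map_sub, map_add, MvPolynomial.eval_X, MvPolynomial.eval_C,
        MvPolynomial.eval_rename]
      rfl
    rw [e1, Ne, sign_eq_one_iff]
    constructor
    · intro h
      push Not at h
      linarith
    · intro h h3
      linarith
  have h3 := (Set.ncard_le_ncard h2 (Set.toFinite _)).trans ((Set.ncard_image_le (Set.toFinite _)).trans h1)
  rw [Fintype.card_option, Fintype.card_fin, Fintype.card_fin] at h3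
  have h4 : (({A : Set (Fin K) | ∃ (x : Fin D → ℝ) (b : ℝ),
      A = {i | MvPolynomial.eval x (P i) + b ≤ y i}}.ncard : ℕ) : ℝ) ≤
      (((4 * K * (m + 1) + 2) ^ (D + 1) : ℕ) : ℝ) := by exact_mod_cast h3
  refine h4.trans (le_of_eq ?_)
  push_cast
  rfl

end Pool.Agent.P8H4.EN
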