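import Pool.Agent.P8H60.EN.Stm3
import Pool.Agent.P8H4.EN.WarCore

/-!
# Project EN of helper60, package WAR (helper4)
-/

set_option autoImplicit false

namespace Pool.Agent.P8H4.EN

open Pool.Agent.P8H60.EN

theorem t_WAR : S_WAR := fun K D m P y hP => war_core K D m P y hP

end Pool.Agent.P8H4.EN
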